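import Pool.Agent.Helper80.MM.Stm
import Pool.Agent.Helper56.NL.Fin

/-! Project MM (helper80), package FLD: the field. -/

set_option autoImplicit false

namespace Pool.Agent.Helper45.MM

open Pool.Agent.Helper35.EM Pool.Agent.Helper56.SA Pool.Agent.Helper56.EM Pool.Agent.Helper56.NL
  Pool.Agent.Helper56.HS Pool.Agent.Helper80.MM Module Submodule Set ComplexConjugate

/-- the second coordinates of the pairs are all combinations of the logarithms -/
theorem pair_exists (s : ℕ → ℝ) (w e : ℕ → ℂ) {z : ℂ} (hz : z ∈ span ℚ (range w)) :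
    ∃ x ∈ span ℚ (range fun k => e k * (s k : ℂ)), (x, z) ∈ PB s w e := by
  induction hz using Submodule.span_induction with
  | mem z hz =>
    obtain ⟨k, rfl⟩ := hz
    exact ⟨_, subset_span ⟨k, rfl⟩, subset_span ⟨k, rfl⟩⟩
  | zero => exact ⟨0, zero_mem _, zero_mem _⟩
  | add z z' _ _ h h' =>
    obtain ⟨x, h1, h2⟩ := h
    obtain ⟨x', h3, h4⟩ := h'
    exact ⟨x + x', add_mem h1 h3, add_mem h2 h4⟩
  | smul q z _ h =>
    obtain ⟨x, h1, h2⟩ := h
    exact ⟨q • x, Submodule.smul_mem _ q h1, Submodule.smul_mem _ q h2⟩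

/-- the field -/
theorem fieldX {P0 : Submodule ℚ (ℂ × ℂ)} {K : IntermediateField ℚ ℂ}
    (hKcl : ∀ z : ℂ, IsAlgebraic K.toSubfield z → z ∈ K)
    (hconjK : ∀ x ∈ K, conj x ∈ K) (hpK : ((Real.pi : ℝ) : ℂ) ∈ K) (E : K → K) (lam : K →ₗ[ℚ] ℂ)
    (hE : ∀ x, (E x : ℂ) = Complex.exp (lam x)) (hsurj : ∀ y, y ≠ 0 → ∃ x, E x = y)
    (hker : ∀ x, E x = 1 ↔ ∃ n : ℤ, (x : ℂ) = n * (2 * Complex.I * ((Real.pi : ℝ) : ℂ)))
    (hP0 : ∀ q ∈ P0, ∃ x : K, (x : ℂ) = q.1 ∧ lam x = q.2)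
    (hkap : (2 * Complex.I * ((Real.pi : ℝ) : ℂ), 2 * Real.pi * Complex.I) ∈ P0)
    (hconj : ∀ x y : K, (y : ℂ) = conj (x : ℂ) → lam y = conj (lam x))
    (hsch : ∀ (n : ℕ) (z : Fin n → K), LinearIndependent ℚ z →
      ∃ f : Fin n → ℂ,
        (∀ i, f i ∈ range (fun j => (z j : ℂ)) ∪ range fun j => Complex.exp (lam (z j))) ∧
        AlgebraicIndependent ℚ f) :
    ∃ F : Pool.Agent.Helper56.NL.ExpField, F.p = Real.pi ∧ Schanuel F ∧
      (∀ q ∈ P0, q.1 ∈ F.K ∧ F.E q.1 = Complex.exp q.2) ∧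
      ∀ u, Pool.Agent.Helper56.NL.IsLog F u → ∃ z : ℂ, Complex.exp z ∈ M.closure ∅ ∧ ∀ x, (x, z) ∈ P0 → u = x := by
  classical
  have hlaminj : ∀ x y : K, lam x = lam y → x = y := by
    intro x y hxy
    have h1 : lam (x - y) = 0 := by rw [map_sub, hxy, sub_self]
    have h2 : E (x - y) = 1 := by
      apply Subtype.ext
      rw [hE, h1, Complex.exp_zero]
      rfl
    obtain ⟨n, hn⟩ := (hker _).1 h2
    obtain ⟨τ, hτ1, hτ2⟩ := hP0 _ hkap
    have h3 : x - y = (n : ℚ) • τ := by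
      apply Subtype.ext
      rw [hn]
      show _ = (((n : ℚ) • τ : K) : ℂ)
      have : (((n : ℚ) • τ : K) : ℂ) = (n : ℂ) * (τ : ℂ) := by
        have e0 : (((n : ℚ) • τ : K) : ℂ) = (n : ℚ) • (τ : ℂ) := rfl
        rw [e0, Rat.smul_def]
        simp
      rw [this, hτ1]
    rw [h3, map_smul, hτ2, Rat.smul_def] at h1
    have h4 : (n : ℂ) = 0 := by
      rcases mul_eq_zero.1 h1 with h | h
      · exact_mod_cast h
      · exfalso
        have := Complex.two_pi_I_ne_zero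
        exact this h
    have h5 : n = 0 := by exact_mod_cast h4
    rw [h5] at h3
    simp only [Int.cast_zero, zero_smul] at h3
    exact sub_eq_zero.1 h3
  let EE : ℂ → ℂ := fun x => if hx : x ∈ K then Complex.exp (lam ⟨x, hx⟩) else 0
  have hEE : ∀ x : K, EE x = Complex.exp (lam x) := fun x => by
    simp only [EE]
    rw [dif_pos x.2]
  have hEP : ∀ q ∈ P0, EE q.1 = Complex.exp q.2 := by
    intro q hq
    obtain ⟨x, h1, h2⟩ := hP0 q hq
    rw [← h1, hEE, h2]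
  have hfst : ∀ q ∈ P0, q.1 ∈ K := by
    intro q hq
    obtain ⟨x, h1, h2⟩ := hP0 q hq
    rw [← h1]; exact x.2
  have hexpK : ∀ x : K, Complex.exp (lam x) ∈ K := fun x => by rw [← hE]; exact (E x).2
  let F : Pool.Agent.Helper56.NL.ExpField :=
    { K := K.toSubfield
      E := EE
      p := Real.pi
      closed := hKcl
      conj_mem := hconjK
      E_mem := fun x hx => by
        show EE x ∈ K
        rw [hEE ⟨x, hx⟩]; exact hexpK _
      E_add := fun x hx y hy => by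
        have h1 := hEE (⟨x, hx⟩ + ⟨y, hy⟩)
        rw [map_add, Complex.exp_add, ← hEE, ← hEE] at h1
        exact h1
      E_surj := fun y hy hy0 => by
        obtain ⟨x, hx⟩ := hsurj ⟨y, hy⟩ (fun h0 => hy0 (congrArg Subtype.val h0))
        refine ⟨x, x.2, ?_⟩
        rw [hEE, ← hE, hx]
      E_conj := fun x hx => by
        have h1 := hconj ⟨x, hx⟩ ⟨conj x, hconjK x hx⟩ rfl
        have h2 := hEE ⟨conj x, hconjK x hx⟩
        rw [h1, Complex.exp_conj, ← hEE] at h2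
        exact h2
      ker := fun x hx => by
        have h1 := hker ⟨x, hx⟩
        have h2 : EE x = 1 ↔ E ⟨x, hx⟩ = 1 := by
          rw [hEE ⟨x, hx⟩, ← hE]
          constructor
          · intro h0; exact Subtype.ext h0
          · intro h0; rw [h0]; rfl
        rw [h2, h1]
        refine exists_congr fun n => ?_
        show x = n * (2 * Complex.I * ((Real.pi : ℝ) : ℂ)) ↔ _
        rw [show (n : ℂ) * (2 * Complex.I * ((Real.pi : ℝ) : ℂ)) =
          2 * ((Real.pi : ℝ) : ℂ) * Complex.I * n by ring]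
      p_mem := hpK
      p_pos := Real.pi_pos }
  refine ⟨F, rfl, ?_, fun q hq => ⟨hfst q hq, hEP q hq⟩, ?_⟩
  · intro n z hz hi
    let z' : Fin n → K := fun i => ⟨z i, hz i⟩
    have hi' : LinearIndependent ℚ z' := by
      have h1 : z = K.val.toLinearMap ∘ z' := rfl
      rw [h1] at hi
      exact hi.of_comp _
    obtain ⟨f, hf1, hf2⟩ := hsch n z' hi'
    refine ⟨f, fun i => ?_, hf2⟩
    rcases hf1 i with ⟨j, hj⟩ | ⟨j, hj⟩
    · exact Or.inl ⟨j, hj⟩
    · refine Or.inr ⟨j, ?_⟩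
      rw [← hj]
      exact hEE (z' j)
  · intro u hu
    refine ⟨lam ⟨u, hu.1⟩, ?_, fun x hx => ?_⟩
    · rw [← hEE]
      exact mem_cl_empty.2 hu.2
    · obtain ⟨y, hy1, hy2⟩ := hP0 _ hx
      have h2 : y = ⟨u, hu.1⟩ := hlaminj _ _ hy2
      have := congrArg (fun y : K => (y : ℂ)) h2
      exact this.symm.trans hy1

/-- **Package FLD.** -/
theorem fld : S_FLD := by
  intro hPB1 hPB2 hSCHL D s t hs w e hw
  obtain ⟨hSI, hCS⟩ := hPB1 D s t hs w e hw
  have hrkP := hPB2 D s t hs w e hw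
  set S : Set ℂ := range fun k => (s k : ℂ) with hS
  have ht := hs.freeS
  have hF0 : FF S (fun k => (t k : ℂ)) 0 = S := by
    rw [FF]
    have : (Iio 0 : Set ℕ) = ∅ := by
      ext x; simp
    rw [this, image_empty, union_empty]
  have hE1 : ExtS S (fun k => (t k : ℂ)) (PB s w e) (PB s w e) (PB s w e) 0 :=
    ⟨le_rfl, by rw [hF0]; exact hSI, IneqS.refl S (PB s w e), hCS⟩
  have hkap : (2 * Complex.I * ((Real.pi : ℝ) : ℂ), 2 * (Real.pi : ℂ) * Complex.I) ∈
      PB s w e := by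
    have h1 : (e 0 * (s 0 : ℂ), w 0) ∈ PB s w e := subset_span ⟨0, rfl⟩
    have h2 := Submodule.smul_mem (PB s w e) (2 : ℚ) h1
    have h3 : (2 : ℚ) • (e 0 * (s 0 : ℂ), w 0) =
        (2 * Complex.I * ((Real.pi : ℝ) : ℂ), 2 * (Real.pi : ℂ) * Complex.I) := by
      rw [hw.e0, hw.w0, hs.zero]
      ext1
      · show (2 : ℚ) • (Complex.I * ((Real.pi : ℝ) : ℂ)) = _
        rw [Rat.smul_def]
        push_cast
        ring
      · show (2 : ℚ) • ((Real.pi : ℂ) * Complex.I) = _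
        rw [Rat.smul_def]
        push_cast
        ring
    rw [h3] at h2
    exact h2
  obtain ⟨E, lam, hE, hsurj, hker, hP, hrk, hconj⟩ := extS ht hE1
    (2 * Complex.I * ((Real.pi : ℝ) : ℂ)) hkap
  have hreal : ∀ y ∈ S ∪ range (fun k => (t k : ℂ)), conj y = y := by
    rintro y (hy | ⟨n, rfl⟩)
    · exact ht.real y hy
    · exact Complex.conj_ofReal _
  obtain ⟨F, hFp, hF1, hF2, hF3⟩ := fieldX (fun z hz => cl_idem hz)
    (fun x hx => mem_cl.1 (Pool.Agent.Helper35.EM.conj_mem hreal (mem_cl.2 hx)))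
    (mem_cl.1 (cl_self (Or.inl ⟨0, by simp only [hs.zero]⟩))) E lam hE hsurj hker hP hkap hconj
    (hSCHL _ lam S (PB s w e) hSI hrkP hrk)
  refine ⟨F, hFp, hF1, fun k => hF2 _ (subset_span ⟨k, rfl⟩), fun u hu => ?_⟩
  obtain ⟨z, hz1, hz2⟩ := hF3 u hu
  obtain ⟨x, hx1, hx2⟩ := pair_exists s w e ((hw.spn z).2 hz1)
  rw [hz2 x hx2]
  exact hx1

end Pool.Agent.Helper45.MM
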